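import Pool.Agent.Helper32.MZ.LOCK

/-!
# MP_79eb7e_lc, full answer: LOCI (adding pieces of the basis)
-/

set_option autoImplicit false

namespace Pool.Agent.Helper90.MZ

open Pool.Agent.Helper90.TS

theorem st_LOCI (h1 : ST_RLB) (_h2 : ST_IND) : ST_LOCI := by
  intro V G _ _ X a s t κ _ l z c I E p y hW hE haE hSE hp hpE hno hy
  classical
  have hac : a.Countable := hE.mono haE
  have hcc : ∀ i, (c i).Countable := by
    intro i
    obtain ⟨⟨n, f, hf, _⟩, _⟩ := hW.z3 i
    rw [← hf]
    exact Set.countable_range f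
  have hPc : ∀ i, (Set.range (z i) ∪ c i).Countable := fun i =>
    (Set.countable_range _).union (hcc i)
  refine lock_lim X E (fun i => Set.range (z i) ∪ c i) I p y (hE.mono hpE) hE
    (fun i _ => hPc i) ?_
  intro J
  induction J using Finset.induction_on with
  | empty =>
    intro _
    have e : E ∪ ⋃ i ∈ (∅ : Finset κ), (Set.range (z i) ∪ c i) = E := by simp
    rw [e]
    exact hy
  | @insert i J hiJ ih =>
    intro hJ
    have hJ' : ∀ i ∈ J, i ∈ I := fun k' hk' => hJ k' (Finset.mem_insert_of_mem hk')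
    have hi : i ∈ I := hJ i (Finset.mem_insert_self _ _)
    have hyY := ih hJ'
    have hU : (⋃ i ∈ J, (Set.range (z i) ∪ c i)).Countable :=
      Set.Countable.biUnion (Finset.countable_toSet J) (fun i _ => hPc i)
    have hUI : (⋃ i ∈ I, (Set.range (z i) ∪ c i)).Countable :=
      Set.Countable.biUnion (Set.to_countable I) (fun i _ => hPc i)
    set Y : Set V := E ∪ ⋃ i ∈ J, (Set.range (z i) ∪ c i) with hY
    have hYc : Y.Countable := hE.union hU
    have hEY : E ⊆ Y := Set.subset_union_left
    have haY : a ∪ Y = Y := Set.union_eq_self_of_subset_left (haE.trans hEY)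
    -- the piece `i` is independent from `Y` over `a`
    have hiU : SI X a (Set.range (z i) ∪ c i) (⋃ i ∈ J, (Set.range (z i) ∪ c i)) := by
      have := hW.ind {i} {j | j ∈ J} (by
        rw [Set.disjoint_singleton_left]
        exact hiJ)
      have e1 : (⋃ j ∈ ({i} : Set κ), (Set.range (z j) ∪ c j)) = Set.range (z i) ∪ c i := by
        rw [Set.biUnion_singleton]
      rw [e1] at this
      exact this
    have hiE : SI X (a ∪ ⋃ i ∈ J, (Set.range (z i) ∪ c i)) (Set.range (z i) ∪ c i) E := by
      have h3 : SI X a ((⋃ i ∈ J, (Set.range (z i) ∪ c i)) ∪ (Set.range (z i) ∪ c i)) E := by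
        refine si_left ?_ hSE
        intro u hu
        rcases hu with hu | hu
        · obtain ⟨k, hk, hu'⟩ := Set.mem_iUnion₂.1 hu
          exact Set.mem_iUnion₂.2 ⟨k, hJ' k hk, hu'⟩
        · exact Set.mem_iUnion₂.2 ⟨i, hi, hu⟩
      exact ((si_unionl hac hU hE (hPc i)).1 h3).2
    have hiY : SI X a (Set.range (z i) ∪ c i) Y := by
      have h2 := si_trans hac (hPc i) hU hE hiU hiE
      have e2 : (⋃ i ∈ J, (Set.range (z i) ∪ c i)) ∪ E = Y := by
        rw [hY]
        exact Set.union_comm _ _
      rw [e2] at h2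
      exact h2
    have hziY : SI X a (Set.range (z i)) Y := si_left Set.subset_union_left hiY
    have htA : (t (l i)).A ∪ a = a := Set.union_eq_self_of_subset_left (hW.tsr (l i)).2
    have hzY : Rl X (t (l i)) Y (z i) := by
      have h4 := (h1 V G X (t (l i)) (hW.tsr (l i)).1 a hac).2.2.2.1 (z i) Y hYc (hW.rl i)
        (by rw [htA]; exact hziY)
      rw [haY] at h4
      exact h4
    have hsi : SI X Y (Set.range y) (Set.range (z i)) := by
      by_contra hcon
      exact hno (l i) ⟨Y, y, z i, hYc, hpE.trans hEY, (hW.tsr (l i)).2.trans (haE.trans hEY),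
        hyY, hzY, hcon⟩
    have hzc := Set.countable_range (z i)
    have hyc := Set.countable_range y
    have h5 : SI X a (Set.range (z i)) (Y ∪ Set.range y) :=
      si_trans' hzc hYc hyc (haE.trans hEY) hziY (si_symm hYc hyc hzc hsi)
    have h6 : SI X a (Y ∪ Set.range y) (Set.range (z i)) := si_symm hac hzc (hYc.union hyc) h5
    obtain ⟨⟨n, f, hf, ⟨D, _, _, hD⟩⟩, _⟩ := hW.z3 i
    have h7 : SI X a (Y ∪ Set.range y) (Set.range (z i) ∪ c i) := by
      have := (hD (Y ∪ Set.range y) (hYc.union hyc) h6).1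
      rw [hf] at this
      exact this
    have h8 : SI X Y (Set.range y) (Set.range (z i) ∪ c i) := by
      have := ((si_unionl hac hYc (hPc i) hyc).1 h7).2
      rw [haY] at this
      exact this
    have hpY : p.A ∪ Y = Y := Set.union_eq_self_of_subset_left (hpE.trans hEY)
    have h9 := (h1 V G X p hp Y hYc).2.2.2.1 y (Set.range (z i) ∪ c i) (hPc i) hyY
      (by rw [hpY]; exact h8)
    have e : E ∪ ⋃ j ∈ insert i J, (Set.range (z j) ∪ c j) = Y ∪ (Set.range (z i) ∪ c i) := by
      rw [hY, Finset.set_biUnion_insert]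
      ext u
      simp only [Set.mem_union]
      tauto
    rw [e]
    exact h9

end Pool.Agent.Helper90.MZ
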