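import Pool.Agent.Helper90.MZ.StmtsZ
import Pool.Agent.Helper90.MZ.Base

/-!
# MP_79eb7e_lc, full answer: LOCK (adding realizations of orthogonal types)
-/

set_option autoImplicit false

namespace Pool.Agent.Helper90.MZ

open Pool.Agent.Helper90.TS

/-- a finite subset of `E ∪ ⋃ k ∈ K, S k` lies in `E ∪ ⋃ k ∈ J, S k` for a finite `J ⊆ K` -/
theorem lock_fin {V κ : Type} [DecidableEq κ] (E : Set V) (S : κ → Set V) (K : Set κ) (C0 : Set V)
    (hf : C0.Finite) (hs : C0 ⊆ E ∪ ⋃ k ∈ K, S k) :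
    ∃ J : Finset κ, (∀ k ∈ J, k ∈ K) ∧ C0 ⊆ E ∪ ⋃ k ∈ J, S k := by
  induction C0, hf using Set.Finite.induction_on with
  | empty => exact ⟨∅, by simp, Set.empty_subset _⟩
  | @insert x C1 _ _ ih =>
    obtain ⟨J, hJ, h⟩ := ih ((Set.subset_insert _ _).trans hs)
    rcases hs (Set.mem_insert _ _) with hx | hx
    · exact ⟨J, hJ, Set.insert_subset (Or.inl hx) h⟩
    · obtain ⟨k, hk, hxk⟩ := Set.mem_iUnion₂.1 hx
      refine ⟨insert k J, ?_, ?_⟩
      · intro k' hk'
        rcases Finset.mem_insert.1 hk' with rfl | hk'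
        · exact hk
        · exact hJ k' hk'
      · refine Set.insert_subset (Or.inr (Set.mem_iUnion₂.2 ⟨k, Finset.mem_insert_self _ _, hxk⟩))
          ?_
        intro u hu
        rcases h hu with hu | hu
        · exact Or.inl hu
        · obtain ⟨k', hk', hu'⟩ := Set.mem_iUnion₂.1 hu
          exact Or.inr (Set.mem_iUnion₂.2 ⟨k', Finset.mem_insert_of_mem hk', hu'⟩)

/-- passage from finite unions to the whole union -/
theorem lock_lim {V G : Type} [Group G] [MulAction G V] (X : Ctx V G) {κ : Type} [Countable κ]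
    [DecidableEq κ] (E : Set V) (S : κ → Set V) (K : Set κ) (p : Ty V) (y : Fin 1 → V)
    (hpA : p.A.Countable) (hE : E.Countable) (hS : ∀ k ∈ K, (S k).Countable)
    (h : ∀ J : Finset κ, (∀ k ∈ J, k ∈ K) → Rl X p (E ∪ ⋃ k ∈ J, S k) y) :
    Rl X p (E ∪ ⋃ k ∈ K, S k) y := by
  have hU : (E ∪ ⋃ k ∈ K, S k).Countable :=
    hE.union (Set.Countable.biUnion (Set.to_countable K) hS)
  refine ⟨(h ∅ (by simp)).1, ?_⟩
  refine si_finite hpA (Set.countable_range y) hU ?_
  intro B0 C0 hB hC _ hCf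
  obtain ⟨J, hJ, hCJ⟩ := lock_fin E S K C0 hCf hC
  have hUJ : (E ∪ ⋃ k ∈ J, S k).Countable :=
    hE.union (Set.Countable.biUnion (Finset.countable_toSet J) (fun k hk => hS k (hJ k hk)))
  exact si_left hB (si_right hpA (Set.countable_range y) hUJ hCJ (h J hJ).2)

theorem st_LOCK (h1 : ST_RLB) : ST_LOCK := by
  intro V G _ _ X κ' _ q b K E p y hE hq hp hpE hno hy
  classical
  refine lock_lim X E (fun k => Set.range (b k)) K p y (hE.mono hpE) hE
    (fun k _ => Set.countable_range _) ?_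
  intro J
  induction J using Finset.induction_on with
  | empty =>
    intro _
    have e : E ∪ ⋃ k ∈ (∅ : Finset κ'), Set.range (b k) = E := by simp
    rw [e]
    exact hy
  | @insert k J hkJ ih =>
    intro hJ
    have hJ' : ∀ k ∈ J, k ∈ K := fun k' hk' => hJ k' (Finset.mem_insert_of_mem hk')
    have hk : k ∈ K := hJ k (Finset.mem_insert_self _ _)
    have hyB := ih hJ'
    set B : Set V := E ∪ ⋃ k ∈ J, Set.range (b k) with hB
    have hBc : B.Countable :=
      hE.union (Set.Countable.biUnion (Finset.countable_toSet J)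
        (fun k _ => Set.countable_range _))
    have hEB : E ⊆ B := Set.subset_union_left
    obtain ⟨hqs, hqA, hbk⟩ := hq k hk
    have hE2 : (E ∪ ⋃ k' ∈ K \ {k}, Set.range (b k')).Countable :=
      hE.union (Set.Countable.biUnion (Set.to_countable _) (fun k _ => Set.countable_range _))
    have hBsub : B ⊆ (q k).A ∪ (E ∪ ⋃ k' ∈ K \ {k}, Set.range (b k')) := by
      intro u hu
      rcases hu with hu | hu
      · exact Or.inr (Or.inl hu)
      · obtain ⟨k', hk', hu'⟩ := Set.mem_iUnion₂.1 hu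
        refine Or.inr (Or.inr (Set.mem_iUnion₂.2 ⟨k', ⟨hJ' k' hk', ?_⟩, hu'⟩))
        intro hkk
        rw [Set.mem_singleton_iff] at hkk
        rw [hkk] at hk'
        exact hkJ hk'
    have hbB : Rl X (q k) B (b k) := (h1 V G X (q k) hqs _ hE2).2.2.1 (b k) hbk B hBsub
    have hsi : SI X B (Set.range y) (Set.range (b k)) := by
      by_contra hcon
      exact hno k hk ⟨B, y, b k, hBc, hpE.trans hEB, hqA.trans hEB, hyB, hbB, hcon⟩
    have hpB : p.A ∪ B = B := Set.union_eq_self_of_subset_left (hpE.trans hEB)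
    have h4 := (h1 V G X p hp B hBc).2.2.2.1 y (Set.range (b k)) (Set.countable_range _) hyB
      (by rw [hpB]; exact hsi)
    have e : E ∪ ⋃ k' ∈ insert k J, Set.range (b k') = B ∪ Set.range (b k) := by
      rw [hB, Finset.set_biUnion_insert, Set.union_assoc,
        Set.union_comm (⋃ k ∈ J, Set.range (b k))]
    rw [e]
    exact h4

end Pool.Agent.Helper90.MZ
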